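import Pool.Agent.P8H67.IU.Stm

/-! Project IU: common lemmas for the packages LA, LB, LOC. -/

set_option autoImplicit false

namespace Pool.Agent.P8H33.IU

open Polynomial Finset
open Pool.Agent.P8H67.IU

universe u

theorem log_small {d : ℕ} (hd : 2 ≤ d) (K : ℝ) :
    ∃ N₀ : ℕ, ∀ N : ℕ, N₀ ≤ N → K * ((Nat.log d N : ℝ) + 1) ≤ N := by
  rcases le_or_gt K 0 with hK | hK
  · refine ⟨0, fun N _ => ?_⟩
    have h1 : K * ((Nat.log d N : ℝ) + 1) ≤ 0 := mul_nonpos_of_nonpos_of_nonneg hK (by positivity)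
    exact h1.trans (by positivity)
  · have h1 : ∀ᶠ x : ℝ in Filter.atTop, ‖Real.log x‖ ≤ (Real.log 2 / (2 * K)) * ‖id x‖ :=
      Real.isLittleO_log_id_atTop.bound (by positivity)
    have h2 : ∀ᶠ x : ℝ in Filter.atTop, 2 * K ≤ x := Filter.eventually_ge_atTop _
    have h3 : ∀ᶠ x : ℝ in Filter.atTop, (1 : ℝ) ≤ x := Filter.eventually_ge_atTop _
    obtain ⟨X, hX⟩ := Filter.eventually_atTop.1 ((h1.and h2).and h3)
    refine ⟨⌈X⌉₊, fun N hN => ?_⟩
    have hNX : X ≤ (N : ℝ) := (Nat.le_ceil X).trans (by exact_mod_cast hN)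
    obtain ⟨⟨k1, k2⟩, k3⟩ := hX (N : ℝ) hNX
    have hN0 : (0 : ℝ) < N := by linarith
    have hlog : 0 ≤ Real.log (N : ℝ) := Real.log_nonneg k3
    rw [Real.norm_of_nonneg hlog, id, Real.norm_of_nonneg hN0.le] at k1
    have h4 : (Nat.log d N : ℝ) ≤ Real.log N / Real.log 2 := by
      have hN1 : N ≠ 0 := by
        rintro rfl
        norm_num at hN0
      have h5 : Nat.log d N ≤ Nat.log 2 N := Nat.log_anti_left (by norm_num) hd
      have h6 : (2 : ℝ) ^ (Nat.log 2 N) ≤ N := by exact_mod_cast Nat.pow_log_le_self 2 hN1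
      have h7 : (Nat.log 2 N : ℝ) * Real.log 2 ≤ Real.log N := by
        rw [← Real.log_pow]
        exact Real.log_le_log (by positivity) h6
      have h8 : (Nat.log 2 N : ℝ) ≤ Real.log N / Real.log 2 := by
        rw [le_div_iff₀ (Real.log_pos (by norm_num))]
        exact h7
      exact (by exact_mod_cast h5 : (Nat.log d N : ℝ) ≤ (Nat.log 2 N : ℝ)).trans h8
    have h9 : Real.log N / Real.log 2 ≤ N / (2 * K) := by
      rw [div_le_iff₀ (Real.log_pos (by norm_num))]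
      calc Real.log N ≤ Real.log 2 / (2 * K) * N := k1
        _ = N / (2 * K) * Real.log 2 := by ring
    calc K * ((Nat.log d N : ℝ) + 1) ≤ K * (N / (2 * K) + 1) := by
          apply mul_le_mul_of_nonneg_left _ hK.le
          linarith [h4.trans h9]
      _ = N / 2 + K := by
          field_simp
      _ ≤ N := by linarith

/-- the error terms are small -/
theorem err_small {d : ℕ} (hd : 2 ≤ d) (K ε : ℝ) (hε : 0 < ε) :
    ∃ N₀ : ℕ, ∀ N : ℕ, N₀ ≤ N →
      2 * d * N * ((Nat.log d N : ℝ) + 1) + K * N ≤ ε * (N : ℝ) ^ 2 := by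
  obtain ⟨N₁, h1⟩ := log_small hd (4 * d / ε)
  obtain ⟨N₂, h2⟩ := exists_nat_ge (2 * K / ε)
  refine ⟨max N₁ N₂, fun N hN => ?_⟩
  have k1 := h1 N ((le_max_left _ _).trans hN)
  have k2 : 2 * K / ε ≤ N := h2.trans (by exact_mod_cast (le_max_right _ _).trans hN)
  have hN0 : (0 : ℝ) ≤ N := by positivity
  rw [div_mul_eq_mul_div, div_le_iff₀ hε] at k1
  rw [div_le_iff₀ hε] at k2
  have e1 : 4 * d * ((Nat.log d N : ℝ) + 1) * N ≤ N * ε * N := mul_le_mul_of_nonneg_right k1 hN0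
  have e2 : 2 * K * N ≤ N * ε * N := mul_le_mul_of_nonneg_right k2 hN0
  nlinarith

theorem En_sum_er {α : Type u} (δ : α → α → ℝ) (d : ℕ) (r : ℝ) (x y : α) :
    -(d * r) - er δ d r x y ≤ δ x y := by
  unfold er
  have := le_max_right 0 (-(d * r) - δ x y)
  linarith

theorem er_nonneg {α : Type u} (δ : α → α → ℝ) (d : ℕ) (r : ℝ) (x y : α) :
    0 ≤ er δ d r x y := le_max_left _ _

theorem Er_nonneg {α : Type u} (δ : α → α → ℝ) (d : ℕ) (r : ℝ) (F : α → α) (Y : Finset α) :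
    0 ≤ Er δ d r F Y :=
  Finset.sum_nonneg fun _ _ => Finset.sum_nonneg fun _ _ => er_nonneg _ _ _ _ _

theorem le_Mx {α : Type u} (δ : α → α → ℝ) (l x y : α) : δ x y ≤ Mx δ l x y := le_max_left _ _

theorem sum_const2 {α : Type u} (Y : Finset α) (c : ℝ) :
    ∑ _x ∈ Y, ∑ _y ∈ Y, c = c * (Y.card : ℝ) ^ 2 := by
  simp only [Finset.sum_const, nsmul_eq_mul]
  ring

/-- lower bound for the sum of `Mx` -/
theorem Mx_lower {α : Type u} (δ : α → α → ℝ) (l : α) (d : ℕ) (r : ℝ) (Y : Finset α) :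
    -(d * r) * (Y.card : ℝ) ^ 2 - Er δ d r id Y ≤ ∑ x ∈ Y, ∑ y ∈ Y, Mx δ l x y := by
  rw [← sum_const2, Er, ← Finset.sum_sub_distrib]
  refine Finset.sum_le_sum fun x _ => ?_
  rw [← Finset.sum_sub_distrib]
  refine Finset.sum_le_sum fun y _ => ?_
  exact (En_sum_er δ d r x y).trans (le_Mx δ l x y)

section

variable {L : Type u} [NormedField L]

/-- backward iteration stays in the disc -/
theorem inn_it {f : L[X]} {x₀ : L} {R : ℝ} (hD : Disc f x₀ R) (n : ℕ) :
    ∀ η : L, ‖(fun z => f.eval z)^[n] η - x₀‖ ≤ R → ‖η - x₀‖ ≤ R := by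
  induction n with
  | zero => intro η h; exact h
  | succ n ih =>
    intro η h
    rw [Function.iterate_succ_apply] at h
    exact hD.inn _ η (ih _ h) rfl

theorem orb_shift {f : L[X]} {x₀ : L} {R : ℝ} {y : L} (h : Orb f x₀ R y) (n : ℕ) :
    Orb f x₀ R ((fun z => f.eval z)^[n] y) := by
  intro m
  have := h (m + n)
  rwa [Function.iterate_add_apply] at this

/-- the energy of the image -/
theorem En_image [DecidableEq L] (Y : Finset L) (F : L → L) (hF : Set.InjOn F (Y : Set L)) :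
    En ld (Y.image F) = ∑ x ∈ Y, ∑ y ∈ Y, ld (F x) (F y) := by
  unfold En
  rw [Finset.sum_image hF]
  refine Finset.sum_congr rfl fun x _ => ?_
  rw [Finset.sum_image hF]

end

/-- EN together with UB -/
theorem en_ub (hEN : S_EN.{u}) (hUB : S_UB.{u}) (hITR : S_ITR.{u}) (L : Type u) [NormedField L]
    [IsUltrametricDist L] [IsAlgClosed L] (f : L[X]) (d n : ℕ) (hf : f.Monic)
    (hdeg : f.natDegree = d) (hd : 2 ≤ d) (hn : 1 ≤ n) (x₀ : L) (R : ℝ) (hD : Disc f x₀ R)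
    (Y : Finset L) (hY : ∀ y ∈ Y, Orb f x₀ R y)
    (hinj : Set.InjOn ((fun z => f.eval z)^[n]) (Y : Set L)) (c : L) (x₁ x₂ γ : ℝ)
    (h1 : -(d * Real.log R) ≤ x₁) (h12 : x₁ ≤ x₂) (h2 : x₂ ≤ Real.log R) (hγ : 0 ≤ γ)
    (hs : ∀ s, x₁ ≤ s → s < x₂ → γ ≤ |(((Y.filter fun y => ‖c - y‖ ≤ Real.exp s).card : ℝ) / Y.card) -
      (∑ y ∈ Y, (cnt (it f n - C ((fun z => f.eval z)^[n] y)) c (Real.exp s) : ℝ)) /
        ((d : ℝ) ^ n * Y.card)|) :
    En ld Y ≤ -(γ ^ 2 * (x₂ - x₁) * (Y.card : ℝ) ^ 2) +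
      Er ld d (Real.log R) ((fun z => f.eval z)^[n]) Y +
      Real.log R * (2 * d * Y.card * ((Nat.log d Y.card : ℝ) + 1) +
        2 * ((d : ℝ) ^ n + d) * Y.card) := by
  classical
  obtain ⟨hit, -⟩ := hITR L f hf (by omega)
  obtain ⟨hm, hnd, hev'⟩ := hit n
  have hev : ∀ x, (it f n).eval x = (fun z => f.eval z)^[n] x := hev'
  have hr : 0 ≤ Real.log R := Real.log_nonneg hD.one
  have hq : 1 ≤ d ^ n := Nat.one_le_pow _ _ (by omega)
  have hq2 : 2 ≤ d ^ n := by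
    calc 2 ≤ d := hd
      _ = d ^ 1 := (pow_one d).symm
      _ ≤ d ^ n := Nat.pow_le_pow_right (by omega) hn
  have hfun : (fun y => (it f n).eval y) = (fun z => f.eval z)^[n] := funext hev
  have key := hEN L (it f n) (d ^ n) d hm (by rw [hdeg] at hnd; exact hnd) hq x₀ R hD.one Y
    (by rw [hfun]; exact hinj) (fun y hy => hY y hy 0)
    (fun y hy => by rw [show (it f n).eval y = (fun z => f.eval z)^[n] y from hev y]; exact hY y hy n)
    (fun y hy η hη => by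
      apply inn_it hD n
      rw [← show (it f n).eval η = (fun z => f.eval z)^[n] η from hev η, hη,
        show (it f n).eval y = (fun z => f.eval z)^[n] y from hev y]
      exact hY y hy n) c x₁ x₂ γ
    (by
      refine le_trans ?_ h1
      have h3 : (0 : ℝ) ≤ ((d ^ n : ℕ) : ℝ) - 1 := by
        have : (1 : ℝ) ≤ ((d ^ n : ℕ) : ℝ) := by exact_mod_cast hq
        linarith
      have h4 := mul_nonneg h3 hr
      nlinarith) h12 h2 hγ
    (by
      intro s hs1 hs2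
      have := hs s hs1 hs2
      simp only [hev, Nat.cast_pow]
      exact this)
  have hEF : (∑ x ∈ Y, ∑ y ∈ Y, ld ((it f n).eval x) ((it f n).eval y)) ≤
      Real.log R * (2 * d * Y.card * ((Nat.log d Y.card : ℝ) + 1)) := by
    have h3 := hUB L f d hf hdeg hd x₀ R hD.one (Y.image ((fun z => f.eval z)^[n])) (by
      intro y hy
      obtain ⟨z, hz, rfl⟩ := Finset.mem_image.1 hy
      exact orb_shift (hY z hz) n)
    rw [En_image _ _ hinj, Finset.card_image_of_injOn hinj] at h3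
    have h4 : (∑ x ∈ Y, ∑ y ∈ Y, ld ((it f n).eval x) ((it f n).eval y)) =
        ∑ x ∈ Y, ∑ y ∈ Y, ld ((fun z => f.eval z)^[n] x) ((fun z => f.eval z)^[n] y) := by
      refine Finset.sum_congr rfl fun x _ => Finset.sum_congr rfl fun y _ => ?_
      rw [show (it f n).eval x = (fun z => f.eval z)^[n] x from hev x,
        show (it f n).eval y = (fun z => f.eval z)^[n] y from hev y]
    rw [h4]
    exact h3
  rw [hfun] at key
  have hErn := Er_nonneg ld d (Real.log R) ((fun z => f.eval z)^[n]) Y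
  have hqR : (2 : ℝ) ≤ ((d ^ n : ℕ) : ℝ) := by exact_mod_cast hq2
  have hqR0 : (0 : ℝ) < ((d ^ n : ℕ) : ℝ) := by linarith
  have hU0 : 0 ≤ Real.log R * (2 * d * Y.card * ((Nat.log d Y.card : ℝ) + 1)) := by positivity
  have h5 : (∑ x ∈ Y, ∑ y ∈ Y, ld ((it f n).eval x) ((it f n).eval y)) / ((d ^ n : ℕ) : ℝ) ≤
      Real.log R * (2 * d * Y.card * ((Nat.log d Y.card : ℝ) + 1)) := by
    rw [div_le_iff₀ hqR0]
    calc _ ≤ Real.log R * (2 * d * Y.card * ((Nat.log d Y.card : ℝ) + 1)) := hEF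
      _ = Real.log R * (2 * d * Y.card * ((Nat.log d Y.card : ℝ) + 1)) * 1 := by ring
      _ ≤ _ := mul_le_mul_of_nonneg_left (by linarith) hU0
  have h6 : 2 / ((d ^ n : ℕ) : ℝ) * Er ld d (Real.log R) ((fun z => f.eval z)^[n]) Y ≤
      Er ld d (Real.log R) ((fun z => f.eval z)^[n]) Y := by
    have : 2 / ((d ^ n : ℕ) : ℝ) ≤ 1 := by
      rw [div_le_one hqR0]
      exact hqR
    calc _ ≤ 1 * Er ld d (Real.log R) ((fun z => f.eval z)^[n]) Y :=
          mul_le_mul_of_nonneg_right this hErn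
      _ = _ := one_mul _
  have e7 : (((d ^ n : ℕ) : ℝ)) = (d : ℝ) ^ n := by push_cast; ring
  rw [e7] at key h5 h6
  nlinarith [key, h5, h6]

end Pool.Agent.P8H33.IU
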