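import Pool.Agent.P8H33.IU.Base

/-! Project IU: package LA. -/

set_option autoImplicit false

namespace Pool.Agent.P8H33.IU

open Polynomial Finset
open Pool.Agent.P8H67.IU

universe u

/-- decreasing values in a class modulo the integers -/
theorem dec_values (v : ℕ → ℝ) (J : ℕ) (α : ℝ) (h1 : ∀ t, t < J → ∃ m : ℤ, v t = α + m)
    (h2 : ∀ t, t + 1 < J → v (t + 1) < v t) : ∀ t, t < J → v t ≤ v 0 - t := by
  intro t
  induction t with
  | zero => intro _; simp
  | succ t ih =>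
    intro ht
    have h3 := ih (by omega)
    obtain ⟨m, hm⟩ := h1 t (by omega)
    obtain ⟨m', hm'⟩ := h1 (t + 1) ht
    have h4 := h2 t ht
    have h5 : m' < m := by
      have : (m' : ℝ) < m := by rw [hm, hm'] at h4; linarith
      exact_mod_cast this
    have h6 : (m' : ℝ) + 1 ≤ m := by exact_mod_cast h5
    push_cast
    rw [hm] at h3
    rw [hm']
    linarith

theorem la : S_EN.{u} → S_PATH.{u} → S_UB.{u} → S_ITR.{u} → S_LA.{u} := by
  intro hEN hPATH hUB hITR p d J hp hd hJ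
  have hd0 : (2 : ℝ) ≤ d := by exact_mod_cast hd
  obtain ⟨n, hn⟩ : ∃ n, n = 2 * J + 1 := ⟨_, rfl⟩
  obtain ⟨γ, hγ⟩ : ∃ γ : ℝ, γ = 1 / (2 * d) * (1 / (d : ℝ) ^ n) := ⟨_, rfl⟩
  have hγ0 : 0 < γ := by rw [hγ]; positivity
  have hdn : (0 : ℝ) < (d : ℝ) ^ n := by positivity
  obtain ⟨ε, hε⟩ : ∃ ε : ℝ, ε = γ ^ 2 * (1 / (d : ℝ) ^ n) / 2 := ⟨_, rfl⟩
  have hε0 : 0 < ε := by rw [hε]; positivity
  obtain ⟨N₂, hN₂⟩ := err_small hd (2 * ((d : ℝ) ^ n + d)) ε hε0
  refine ⟨ε, max N₂ 1, hε0, ?_⟩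
  rw [← hn]
  intro L _ _ _ f hf hdeg hmul x₀ R hD hR Y hYc hY hinj hα
  classical
  have hr : 0 < Real.log R := Real.log_pos hR
  have hYc2 : N₂ ≤ Y.card := (le_max_left _ _).trans hYc
  have hYc3 : 1 ≤ Y.card := (le_max_right _ _).trans hYc
  have hN0 : (0 : ℝ) < Y.card := by exact_mod_cast hYc3
  obtain ⟨q₀, hq₀⟩ : Y.Nonempty := Finset.card_pos.1 hYc3
  obtain ⟨x, W, hx, hstep, hW, hcnt⟩ := hPATH L f p d hf hdeg hp hd hmul x₀ R hD hR q₀ (hY q₀ hq₀) n
  obtain ⟨α, hα⟩ := hα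
  -- the steps decrease
  have hdl : ∀ l, l < n → 1 / (d : ℝ) ^ n ≤ 1 / (d : ℝ) ^ l := by
    intro l hl
    apply one_div_le_one_div_of_le (by positivity)
    exact pow_le_pow_right₀ (by linarith) hl.le
  have hstep' : ∀ l, l < n → x (l + 1) ≤ x l - Real.log R * (1 / (d : ℝ) ^ n) := by
    intro l hl
    have h1 := hstep l hl
    have h2 := mul_le_mul_of_nonneg_left (hdl l hl) hr.le
    have h3 : Real.log R / (d : ℝ) ^ l = Real.log R * (1 / (d : ℝ) ^ l) := by ring
    rw [h3] at h1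
    linarith
  by_cases hall : ∀ t, t < J → ∃ y ∈ Y, y ≠ q₀ ∧ x (2 * t + 2) < ld q₀ y ∧ ld q₀ y < x (2 * t)
  · -- many distances
    left
    choose! y hy1 hy2 hy3 hy4 using hall
    have h1 := dec_values (fun t => ld q₀ (y t)) J α
      (fun t ht => hα q₀ hq₀ (y t) (hy1 t ht) (hy2 t ht).symm)
      (fun t ht => by
        have e1 := hy4 (t + 1) ht
        have e2 := hy3 t (by omega)
        rw [show 2 * (t + 1) = 2 * t + 2 by ring] at e1
        exact e1.trans e2) (J - 1) (by omega)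
    have h2 := hy4 0 (by omega)
    have h3 := (hx 0 (by omega)).2
    have h4 := hy3 (J - 1) (by omega)
    have h5 := (hx (2 * (J - 1) + 2) (by omega)).1
    rw [mul_zero] at h2
    have h6 : ((J - 1 : ℕ) : ℝ) = (J : ℝ) - 1 := by
      rw [Nat.cast_sub hJ]
      norm_num
    simp only [h6] at h1
    have h7 : ((d : ℝ) + 1) * Real.log R = d * Real.log R + Real.log R := by ring
    rw [h7]
    linarith
  · -- a gap
    right
    push Not at hall
    obtain ⟨t, ht, hgap⟩ := hall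
    -- the number of points is constant on the interval
    obtain ⟨ν, hν⟩ : ∃ ν : ℝ, ∀ s, x (2 * t + 2) ≤ s → s < x (2 * t) →
        ((Y.filter fun y => ‖q₀ - y‖ ≤ Real.exp s).card : ℝ) / Y.card = ν := by
      refine ⟨((Y.filter fun y => ‖q₀ - y‖ ≤ Real.exp (x (2 * t + 2))).card : ℝ) / Y.card, ?_⟩
      intro s hs1 hs2
      congr 3
      refine Finset.filter_congr fun y hy => ?_
      constructor
      · intro h
        by_cases hyq : y = q₀
        · rw [hyq, sub_self, norm_zero]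
          exact (Real.exp_pos _).le
        · have hpos : 0 < ‖q₀ - y‖ := norm_pos_iff.2 (sub_ne_zero.2 (Ne.symm hyq))
          rw [← Real.log_le_iff_le_exp hpos] at h ⊢
          by_contra hcon
          push Not at hcon
          have h3 := hgap y hy hyq hcon
          have h4 : ld q₀ y = Real.log ‖q₀ - y‖ := rfl
          rw [h4] at h3
          linarith
      · intro h
        exact h.trans (Real.exp_le_exp.2 hs1)
    have hWl : 1 / (d : ℝ) ^ n ≤ W (2 * t + 1) :=
      (hdl (2 * t + 1) (by omega)).trans (hW (2 * t + 1) (by omega))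
    have hWpos : 0 < W (2 * t + 1) := lt_of_lt_of_le (by positivity) hWl
    have hγW : γ ≤ 1 / (2 * d) * W (2 * t + 1) := by
      rw [hγ]
      exact mul_le_mul_of_nonneg_left hWl (by positivity)
    have hx1 := hstep' (2 * t) (by omega)
    have hx2 := hstep' (2 * t + 1) (by omega)
    have hrd : 0 < Real.log R * (1 / (d : ℝ) ^ n) := by positivity
    have hYD : ∀ y ∈ Y, ‖(fun z => f.eval z)^[n] y - x₀‖ ≤ R := fun y hy => hY y hy n
    -- the mean number of roots
    have hup : ∀ s, x (2 * t + 1) ≤ s → W (2 * t + 1) ≤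
        (∑ y ∈ Y, (cnt (it f n - C ((fun z => f.eval z)^[n] y)) q₀ (Real.exp s) : ℝ)) /
          ((d : ℝ) ^ n * Y.card) := by
      intro s hs
      rw [le_div_iff₀ (by positivity)]
      have h3 : (Y.card : ℝ) * (W (2 * t + 1) * (d : ℝ) ^ n) ≤
          ∑ y ∈ Y, (cnt (it f n - C ((fun z => f.eval z)^[n] y)) q₀ (Real.exp s) : ℝ) := by
        rw [← nsmul_eq_mul]
        exact Finset.card_nsmul_le_sum _ _ _ fun y hy =>
          (hcnt _ (hYD y hy) s).1 (2 * t + 1) (by omega) hs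
      linarith
    have hdown : ∀ s, s < x (2 * t + 1) →
        (∑ y ∈ Y, (cnt (it f n - C ((fun z => f.eval z)^[n] y)) q₀ (Real.exp s) : ℝ)) /
          ((d : ℝ) ^ n * Y.card) ≤ (1 - 1 / (d : ℝ)) * W (2 * t + 1) := by
      intro s hs
      rw [div_le_iff₀ (by positivity)]
      have h3 : ∑ y ∈ Y, (cnt (it f n - C ((fun z => f.eval z)^[n] y)) q₀ (Real.exp s) : ℝ) ≤
          (Y.card : ℝ) * ((1 - 1 / (d : ℝ)) * W (2 * t + 1) * (d : ℝ) ^ n) := by
        rw [← nsmul_eq_mul]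
        exact Finset.sum_le_card_nsmul _ _ _ fun y hy =>
          (hcnt _ (hYD y hy) s).2 (2 * t + 1) (by omega) hs
      linarith
    have hfinal : ∀ x₁ x₂ : ℝ, -(d * Real.log R) ≤ x₁ → x₂ ≤ Real.log R →
        Real.log R * (1 / (d : ℝ) ^ n) ≤ x₂ - x₁ →
        (∀ s, x₁ ≤ s → s < x₂ → γ ≤
          |(((Y.filter fun y => ‖q₀ - y‖ ≤ Real.exp s).card : ℝ) / Y.card) -
      (∑ y ∈ Y, (cnt (it f n - C ((fun z => f.eval z)^[n] y)) q₀ (Real.exp s) : ℝ)) /
        ((d : ℝ) ^ n * Y.card)|) →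
        En ld Y ≤ -(ε * Real.log R * (Y.card : ℝ) ^ 2) +
          Er ld d (Real.log R) ((fun z => f.eval z)^[n]) Y := by
      intro x₁ x₂ k1 k2 k3 k4
      have key := en_ub hEN hUB hITR L f d n hf hdeg hd (by omega) x₀ R hD Y hY hinj q₀ x₁ x₂ γ
        k1 (by linarith) k2 hγ0.le k4
      have h2 := mul_le_mul_of_nonneg_left (hN₂ Y.card hYc2) hr.le
      have h3 : γ ^ 2 * (Y.card : ℝ) ^ 2 * (Real.log R * (1 / (d : ℝ) ^ n)) ≤
          γ ^ 2 * (Y.card : ℝ) ^ 2 * (x₂ - x₁) :=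
        mul_le_mul_of_nonneg_left k3 (by positivity)
      have h4 : γ ^ 2 * (Y.card : ℝ) ^ 2 * (Real.log R * (1 / (d : ℝ) ^ n)) =
          2 * (ε * Real.log R * (Y.card : ℝ) ^ 2) := by
        rw [hε]
        ring
      linarith
    have hxt0 := hx (2 * t) (by omega)
    have hxt1 := hx (2 * t + 1) (by omega)
    have hxt2 := hx (2 * t + 2) (by omega)
    have hd1 : 1 / (d : ℝ) * W (2 * t + 1) = 1 / (2 * d) * W (2 * t + 1) +
        1 / (2 * d) * W (2 * t + 1) := by
      field_simp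
      ring
    rcases le_or_gt ν (W (2 * t + 1) - 1 / (2 * d) * W (2 * t + 1)) with hcase | hcase
    · apply hfinal (x (2 * t + 1)) (x (2 * t)) hxt1.1 hxt0.2 (by linarith)
      intro s hs1 hs2
      rw [hν s (by linarith) hs2, abs_sub_comm]
      refine le_trans ?_ (le_abs_self _)
      have := hup s hs1
      linarith
    · apply hfinal (x (2 * t + 2)) (x (2 * t + 1)) hxt2.1 hxt1.2 (by
        rw [show 2 * t + 2 = 2 * t + 1 + 1 by ring]
        linarith)
      intro s hs1 hs2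
      rw [hν s hs1 (by linarith)]
      refine le_trans ?_ (le_abs_self _)
      have := hdown s hs2
      linarith

end Pool.Agent.P8H33.IU
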