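import Pool.Agent.P8H33.IU.Base

/-! Project IU: package LB. -/

set_option autoImplicit false

namespace Pool.Agent.P8H33.IU

open Polynomial Finset
open Pool.Agent.P8H67.IU

universe u

section

variable {L : Type u} [NormedField L] [IsUltrametricDist L]

theorem um {x y z : L} {ρ : ℝ} (h1 : ‖x - y‖ ≤ ρ) (h2 : ‖y - z‖ ≤ ρ) : ‖x - z‖ ≤ ρ := by
  have h3 : x - z = (x - y) + (y - z) := by ring
  rw [h3]
  exact (IsUltrametricDist.norm_add_le_max _ _).trans (max_le h1 h2)

theorem um_lt {x y z : L} {ρ : ℝ} (h1 : ‖x - y‖ < ρ) (h2 : ‖y - z‖ < ρ) : ‖x - z‖ < ρ := by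
  have h3 : x - z = (x - y) + (y - z) := by ring
  rw [h3]
  exact (IsUltrametricDist.norm_add_le_max _ _).trans_lt (max_lt h1 h2)

/-- isosceles triangle -/
theorem um_eq {x y z : L} {ρ : ℝ} (h1 : ‖x - y‖ = ρ) (h2 : ‖y - z‖ < ρ) : ‖x - z‖ = ρ := by
  apply le_antisymm (um h1.le h2.le)
  by_contra hcon
  push Not at hcon
  have h3 : ‖x - y‖ < ρ := um_lt hcon (by rw [norm_sub_rev]; exact h2)
  exact absurd h1 (ne_of_lt h3)

/-- first alternative of LB: many points at distance `R` from `l` -/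
theorem lb_out {d : ℕ} (Y : Finset L) (l : L) (R U : ℝ) (hR : 0 ≤ Real.log R)
    (hY : ∀ y ∈ Y, ‖y - l‖ ≤ R)
    (hU : En ld (Y.filter fun y => ‖y - l‖ = R) ≤ U) :
    Real.log R * ((Y.filter fun y => ‖y - l‖ = R).card : ℝ) ^ 2 - U + En ld Y ≤
      ∑ x ∈ Y, ∑ y ∈ Y, Mx ld l x y := by
  classical
  -- pointwise bound
  have hpt : ∀ x ∈ Y, ∀ y ∈ Y, (if ‖x - l‖ = R ∧ ‖y - l‖ = R then Real.log R - ld x y else 0) +
      ld x y ≤ Mx ld l x y := by
    intro x hx y hy
    split_ifs with h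
    · have : ld x l ≤ Mx ld l x y := (le_max_left _ _).trans (le_max_right _ _)
      have h2 : ld x l = Real.log R := by unfold ld; rw [h.1]
      linarith
    · rw [zero_add]
      exact le_Mx _ _ _ _
  have h1 : ∑ x ∈ Y, ∑ y ∈ Y, (if ‖x - l‖ = R ∧ ‖y - l‖ = R then Real.log R - ld x y else 0) =
      Real.log R * ((Y.filter fun y => ‖y - l‖ = R).card : ℝ) ^ 2 -
        En ld (Y.filter fun y => ‖y - l‖ = R) := by
    have h2 : ∀ x ∈ Y, ∑ y ∈ Y, (if ‖x - l‖ = R ∧ ‖y - l‖ = R then Real.log R - ld x y else 0) =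
        if ‖x - l‖ = R then ∑ y ∈ Y.filter (fun y => ‖y - l‖ = R), (Real.log R - ld x y) else 0 := by
      intro x _
      split_ifs with h
      · rw [Finset.sum_filter]
        exact Finset.sum_congr rfl fun y _ => by simp [h]
      · exact Finset.sum_eq_zero fun y _ => by simp [h]
    rw [Finset.sum_congr rfl h2, ← Finset.sum_filter]
    unfold En
    simp only [Finset.sum_sub_distrib, Finset.sum_const, nsmul_eq_mul]
    ring
  calc Real.log R * ((Y.filter fun y => ‖y - l‖ = R).card : ℝ) ^ 2 - U + En ld Y ≤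
      ∑ x ∈ Y, ∑ y ∈ Y, (if ‖x - l‖ = R ∧ ‖y - l‖ = R then Real.log R - ld x y else 0) +
        En ld Y := by rw [h1]; linarith
    _ = ∑ x ∈ Y, ∑ y ∈ Y, ((if ‖x - l‖ = R ∧ ‖y - l‖ = R then Real.log R - ld x y else 0) +
        ld x y) := by
      unfold En
      simp only [Finset.sum_add_distrib]
    _ ≤ _ := Finset.sum_le_sum fun x hx => Finset.sum_le_sum fun y hy => hpt x hx y hy

/-- a product of numbers at least one is at least each of them -/
theorem le_prod_of_mem (s : Multiset ℝ) (h1 : ∀ x ∈ s, 1 ≤ x) (a : ℝ) (ha : a ∈ s) :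
    a ≤ s.prod := by
  obtain ⟨t, rfl⟩ := Multiset.exists_cons_of_mem ha
  rw [Multiset.prod_cons]
  have ht : 1 ≤ t.prod := by
    have : ∀ s : Multiset ℝ, (∀ x ∈ s, 1 ≤ x) → 1 ≤ s.prod := by
      intro s
      induction s using Multiset.induction with
      | empty => intro _; simp
      | cons b s ih =>
        intro hb
        rw [Multiset.prod_cons]
        have h2 := hb b (Multiset.mem_cons_self _ _)
        have h3 := ih fun x hx => hb x (Multiset.mem_cons_of_mem hx)
        nlinarith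
    exact this t fun x hx => h1 x (Multiset.mem_cons_of_mem hx)
  have ha1 := h1 a ha
  nlinarith

/-- a polynomial of the project takes every value of the disc in every smaller disc around a
point at distance `R` -/
theorem cnt_one [IsAlgClosed L] (hGNM : S_GNM.{u}) {f : L[X]} (hf : f.Monic)
    (hdeg : 1 ≤ f.natDegree) {x₀ : L} {R : ℝ} (hD : Disc f x₀ R) (hR : 1 < R) {η : L}
    (hη : ‖η - x₀‖ ≤ R) (hfη : ‖f.eval η - x₀‖ ≤ R) {ρ : ℝ} (hρ : 1 ≤ ρ) (b : L)
    (hb : ‖b - x₀‖ ≤ R) : 1 ≤ cnt (f - C b) η ρ := by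
  classical
  obtain ⟨-, h2, -⟩ := hGNM L f hf hdeg b η ρ (by linarith)
  have hne : f - C (f.eval η) ≠ 0 := by
    intro h
    have h3 : f = C (f.eval η) := sub_eq_zero.1 h
    rw [h3, natDegree_C] at hdeg
    omega
  have hGN : ‖b - f.eval η‖ ≤ GN (f - C (f.eval η)) η ρ := by
    have h3 : ‖b - f.eval η‖ ≤ R := um hb (by rw [norm_sub_rev]; exact hfη)
    obtain ⟨η', h4, h5⟩ := hD.far hR (f.eval η) η hfη hη
    have h6 : R ≤ GN (f - C (f.eval η)) η ρ := by
      unfold GN
      refine le_trans ?_ (le_prod_of_mem _ ?_ (max ρ ‖η - η'‖) ?_)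
      · rw [← h5, norm_sub_rev]
        exact le_max_right _ _
      · intro x hx
        obtain ⟨z, -, rfl⟩ := Multiset.mem_map.1 hx
        exact hρ.trans (le_max_left _ _)
      · refine Multiset.mem_map.2 ⟨η', ?_, rfl⟩
        rw [mem_roots hne, IsRoot.def, eval_sub, eval_C, h4, sub_self]
    exact h3.trans h6
  rw [h2 hGN]
  unfold cnt
  refine Multiset.card_pos_iff_exists_mem.2 ⟨η, ?_⟩
  rw [Multiset.mem_filter]
  refine ⟨?_, ?_⟩
  · rw [mem_roots hne, IsRoot.def, eval_sub, eval_C, sub_self]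
  · rw [sub_self, norm_zero]
    linarith

end

/-- the number of the roots in a disc for an iterate -/
theorem cnt_it {L : Type u} [NormedField L] [IsUltrametricDist L] [IsAlgClosed L]
    (hITR : S_ITR.{u}) {f : L[X]} (hf : f.Monic) (hdeg : 1 ≤ f.natDegree) (j : ℕ) (a η : L) (ρ : ℝ)
    {x₀ : L} {R : ℝ} (hD : Disc f x₀ R) (ha : ‖a - x₀‖ ≤ R)
    (h1 : ∀ b, ‖b - x₀‖ ≤ R → 1 ≤ cnt (f - C b) η ρ) :
    f.natDegree ^ j ≤ cnt (it f (j + 1) - C a) η ρ := by
  classical
  obtain ⟨hit, hro⟩ := hITR L f hf hdeg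
  obtain ⟨hm, hnd, hev⟩ := hit j
  have h2 := hro 1 j a
  have hc : it f (j + 1) = (f.comp)^[1 + j] X := by
    unfold it
    rw [add_comm]
  unfold cnt
  rw [hc, h2]
  have e1 : ∀ s : Multiset L, (∀ b ∈ s, ‖b - x₀‖ ≤ R) → Multiset.card s ≤
      Multiset.card ((s.bind fun b => ((f.comp)^[1] X - C b).roots).filter fun z => ‖η - z‖ ≤ ρ) := by
    intro s
    induction s using Multiset.induction with
    | empty => intro _; simp
    | cons b s ih =>
      intro hb
      rw [Multiset.cons_bind, Multiset.filter_add, Multiset.card_add, Multiset.card_cons]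
      have h3 := ih fun x hx => hb x (Multiset.mem_cons_of_mem hx)
      have h4 := h1 b (hb b (Multiset.mem_cons_self _ _))
      unfold cnt at h4
      have h5 : (f.comp)^[1] X = f := by
        rw [Function.iterate_one, comp_X]
      rw [h5] at h3 ⊢
      omega
  have h6 : Multiset.card ((f.comp)^[j] X - C a).roots = f.natDegree ^ j := by
    rw [← hnd]
    rw [← (natDegree_sub_C (a := a) (p := (f.comp)^[j] X))]
    exact ((IsAlgClosed.splits _).natDegree_eq_card_roots).symm
  rw [← h6]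
  apply e1
  intro b hb
  have hne : (f.comp)^[j] X - C a ≠ 0 := by
    intro h
    rw [h] at hb
    simp at hb
  rw [mem_roots hne, IsRoot.def, eval_sub, eval_C, hev, sub_eq_zero] at hb
  apply inn_it hD j
  rw [hb]
  exact ha

theorem lb : S_EN.{u} → S_GNM.{u} → S_UB.{u} → S_ITR.{u} → S_LB.{u} := by
  intro hEN hGNM hUB hITR d n hd hn
  have hd0 : (2 : ℝ) ≤ d := by exact_mod_cast hd
  obtain ⟨N₁, hN₁⟩ := err_small hd 0 (1 / 2) (by norm_num)
  obtain ⟨N₂, hN₂⟩ := err_small hd (2 * ((d : ℝ) ^ n + d)) (1 / (8 * (d : ℝ) ^ 2)) (by positivity)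
  refine ⟨max (2 * d * N₁) (max N₂ 1), ?_⟩
  intro L _ _ _ f hf hdeg x₀ R hD hR Y hYc hY hinj l₀ hl₀ hl₀Y
  classical
  have hr : 0 < Real.log R := Real.log_pos hR
  have hYc1 : 2 * d * N₁ ≤ Y.card := (le_max_left _ _).trans hYc
  have hYc2 : N₂ ≤ Y.card := (le_max_left _ _).trans ((le_max_right _ _).trans hYc)
  have hYc3 : 1 ≤ Y.card := (le_max_right _ _).trans ((le_max_right _ _).trans hYc)
  have hN0 : (0 : ℝ) < Y.card := by exact_mod_cast hYc3
  have hYl : ∀ y ∈ Y, ‖y - l₀‖ ≤ R := fun y hy => um (hY y hy 0) (by rw [norm_sub_rev]; exact hl₀)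
  obtain ⟨O, hO⟩ : ∃ O : Finset L, O = Y.filter fun y => ‖y - l₀‖ = R := ⟨_, rfl⟩
  rcases le_or_gt (Y.card : ℝ) (2 * d * O.card) with hbig | hsmall
  · -- many points outside
    right
    have hUBO := hUB L f d hf hdeg hd x₀ R hD.one O (by
      intro y hy
      rw [hO] at hy
      exact hY y (Finset.mem_filter.1 hy).1)
    have h1 := lb_out (d := d) Y l₀ R
      (Real.log R * (2 * d * O.card * ((Nat.log d O.card : ℝ) + 1))) hr.le hYl
      (by rw [← hO]; exact hUBO)
    rw [← hO] at h1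
    have hON : N₁ ≤ O.card := by
      have h2 : (2 * d * N₁ : ℕ) ≤ 2 * d * O.card := by
        have h3 : ((2 * d * N₁ : ℕ) : ℝ) ≤ ((2 * d * O.card : ℕ) : ℝ) := by
          have h4 : ((2 * d * N₁ : ℕ) : ℝ) ≤ (Y.card : ℝ) := by exact_mod_cast hYc1
          refine h4.trans (hbig.trans_eq ?_)
          push_cast
          ring
        exact_mod_cast h3
      exact Nat.le_of_mul_le_mul_left h2 (by omega)
    have h2 := hN₁ O.card hON
    rw [zero_mul, add_zero] at h2
    have h3 : Real.log R * (2 * d * O.card * ((Nat.log d O.card : ℝ) + 1)) ≤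
        Real.log R * (1 / 2 * (O.card : ℝ) ^ 2) := mul_le_mul_of_nonneg_left h2 hr.le
    have h4 : 1 / (8 * (d : ℝ) ^ 2) * (Y.card : ℝ) ^ 2 ≤ 1 / 2 * (O.card : ℝ) ^ 2 := by
      have h5 : (Y.card : ℝ) ^ 2 ≤ (2 * d * O.card) ^ 2 := pow_le_pow_left₀ hN0.le hbig 2
      rw [div_mul_eq_mul_div, one_mul, div_le_iff₀ (by positivity)]
      calc (Y.card : ℝ) ^ 2 ≤ (2 * d * O.card) ^ 2 := h5
        _ = 1 / 2 * (O.card : ℝ) ^ 2 * (8 * (d : ℝ) ^ 2) := by ring
    have h6 : Real.log R * (1 / (8 * (d : ℝ) ^ 2) * (Y.card : ℝ) ^ 2) ≤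
        Real.log R * (1 / 2 * (O.card : ℝ) ^ 2) := mul_le_mul_of_nonneg_left h4 hr.le
    nlinarith
  · -- few points outside
    left
    obtain ⟨η, hη1, hη2⟩ := hD.far hR x₀ l₀ (by rw [sub_self, norm_zero]; linarith [hD.one]) hl₀
    have hηD : ‖η - x₀‖ ≤ R := um hη2.le hl₀
    have hfη : ‖f.eval η - x₀‖ ≤ R := by rw [hη1, sub_self, norm_zero]; linarith [hD.one]
    have hdeg1 : 1 ≤ f.natDegree := by omega
    have key := en_ub hEN hUB hITR L f d n hf hdeg hd hn x₀ R hD Y hY hinj η 0 (Real.log R)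
      (1 / (2 * d)) (by have : 0 ≤ (d : ℝ) * Real.log R := by positivity
                        linarith) hr.le le_rfl (by positivity) (by
        intro s hs0 hs1
        have hes1 : 1 ≤ Real.exp s := Real.one_le_exp hs0
        have hes2 : Real.exp s < R := by
          rw [← Real.exp_log (by linarith : 0 < R)]
          exact Real.exp_lt_exp.2 hs1
        have hfilt : (Y.filter fun y => ‖η - y‖ ≤ Real.exp s) ⊆ O := by
          intro y hy
          rw [Finset.mem_filter] at hy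
          rw [hO, Finset.mem_filter]
          refine ⟨hy.1, ?_⟩
          have h3 : ‖l₀ - η‖ = R := by rw [norm_sub_rev]; exact hη2
          have h4 := um_eq h3 (lt_of_le_of_lt hy.2 hes2)
          rw [norm_sub_rev]
          exact h4
        have h5 : ((Y.filter fun y => ‖η - y‖ ≤ Real.exp s).card : ℝ) / Y.card ≤ 1 / (2 * d) := by
          rw [div_le_div_iff₀ hN0 (by positivity)]
          have h6 : ((Y.filter fun y => ‖η - y‖ ≤ Real.exp s).card : ℝ) ≤ O.card := by
            exact_mod_cast Finset.card_le_card hfilt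
          have h7 : ((Y.filter fun y => ‖η - y‖ ≤ Real.exp s).card : ℝ) * (2 * d) ≤
              O.card * (2 * d) := mul_le_mul_of_nonneg_right h6 (by positivity)
          linarith
        have h8 : ∀ y ∈ Y, (d : ℝ) ^ (n - 1) ≤
            (cnt (it f n - C ((fun z => f.eval z)^[n] y)) η (Real.exp s) : ℝ) := by
          intro y hy
          have h9 := cnt_it hITR hf hdeg1 (n - 1) ((fun z => f.eval z)^[n] y) η (Real.exp s) hD
            (hY y hy n) (fun b hb => cnt_one hGNM hf hdeg1 hD hR hηD hfη hes1 b hb)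
          rw [Nat.sub_add_cancel hn, hdeg] at h9
          exact_mod_cast h9
        have h10 : (Y.card : ℝ) * (d : ℝ) ^ (n - 1) ≤
            ∑ y ∈ Y, (cnt (it f n - C ((fun z => f.eval z)^[n] y)) η (Real.exp s) : ℝ) := by
          rw [← nsmul_eq_mul]
          exact Finset.card_nsmul_le_sum _ _ _ h8
        have h11 : 1 / (d : ℝ) ≤ (∑ y ∈ Y, (cnt (it f n - C ((fun z => f.eval z)^[n] y)) η
            (Real.exp s) : ℝ)) / ((d : ℝ) ^ n * Y.card) := by
          rw [div_le_div_iff₀ (by positivity) (by positivity)]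
          have h12 : (d : ℝ) ^ n = (d : ℝ) ^ (n - 1) * d := by
            rw [← pow_succ, Nat.sub_add_cancel hn]
          rw [h12]
          nlinarith
        rw [abs_sub_comm]
        refine le_trans ?_ (le_abs_self _)
        have h13 : 1 / (d : ℝ) = 1 / (2 * d) + 1 / (2 * d) := by
          field_simp
          norm_num
        linarith)
    have h2 := hN₂ Y.card hYc2
    have h3 := mul_le_mul_of_nonneg_left h2 hr.le
    have h4 : (1 / (2 * (d : ℝ))) ^ 2 * (Real.log R - 0) * (Y.card : ℝ) ^ 2 =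
        2 * (Real.log R * (1 / (8 * (d : ℝ) ^ 2) * (Y.card : ℝ) ^ 2)) := by
      field_simp
      ring
    rw [h4] at key
    have h5 : 1 / (8 * (d : ℝ) ^ 2) * Real.log R * (Y.card : ℝ) ^ 2 =
        Real.log R * (1 / (8 * (d : ℝ) ^ 2) * (Y.card : ℝ) ^ 2) := by ring
    rw [h5]
    linarith

end Pool.Agent.P8H33.IU
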