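import Pool.Agent.P8H33.IU.Base

/-! Project IU: package LOC. -/

set_option autoImplicit false

namespace Pool.Agent.P8H33.IU

open Polynomial Finset
open Pool.Agent.P8H67.IU

universe u

/-- the real inequalities behind LOC, first case -/
theorem loc_case1 {r N2 SM E e1 e2 ε d T c A : ℝ} (hr : 0 ≤ r) (hN : 0 ≤ N2) (he1 : 0 ≤ e1)
    (he2 : 0 ≤ e2) (hT : 1 ≤ T) (hd : 0 ≤ d) (hA : 0 ≤ A)
    (hTε : d + c + 2 * (d + 1) * A ≤ T * ε)
    (hSM : -(d * r) * N2 - e1 ≤ SM) (hE : E ≤ -(ε * r * N2) + e2) :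
    c * r * N2 ≤ SM - T * E + (T + 1) * (e1 + e2) ∧
    (1 ≤ 2 * (d + 1) * r → (c * r + A) * N2 ≤ SM - T * E + (T + 1) * (e1 + e2)) := by
  have hrN : 0 ≤ r * N2 := mul_nonneg hr hN
  have h1 : T * E ≤ T * (-(ε * r * N2) + e2) := mul_le_mul_of_nonneg_left hE (by linarith)
  have h2 : (T * ε - d) * (r * N2) ≤ SM - T * E + (T + 1) * (e1 + e2) := by
    have h3 : 0 ≤ T * e1 := mul_nonneg (by linarith) he1
    nlinarith
  have hA1 : 0 ≤ 2 * (d + 1) * A := by positivity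
  refine ⟨?_, fun h4 => ?_⟩
  · have h3 : c * (r * N2) ≤ (T * ε - d) * (r * N2) :=
      mul_le_mul_of_nonneg_right (by linarith) hrN
    linarith
  · have h3 : (c + 2 * (d + 1) * A) * (r * N2) ≤ (T * ε - d) * (r * N2) :=
      mul_le_mul_of_nonneg_right (by linarith) hrN
    have h5 : A * N2 * 1 ≤ A * N2 * (2 * (d + 1) * r) :=
      mul_le_mul_of_nonneg_left h4 (mul_nonneg hA hN)
    nlinarith

/-- the real inequalities behind LOC, second case -/
theorem loc_case2 {r N2 SM E e1 e2 T c5 A U : ℝ} (hr : 0 ≤ r) (hN : 0 ≤ N2) (he1 : 0 ≤ e1)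
    (he2 : 0 ≤ e2) (hT : 1 ≤ T) (hc : 0 ≤ c5) (hrA : 4 * A ≤ c5 * r)
    (hU : E ≤ r * U) (hU2 : (T - 1) * U ≤ c5 / 2 * N2)
    (hSM : c5 * r * N2 + E ≤ SM) :
    c5 / 4 * r * N2 ≤ SM - T * E + (T + 1) * (e1 + e2) ∧
    (c5 / 4 * r + A) * N2 ≤ SM - T * E + (T + 1) * (e1 + e2) := by
  have hrN : 0 ≤ r * N2 := mul_nonneg hr hN
  have h1 : (T - 1) * E ≤ (T - 1) * (r * U) := mul_le_mul_of_nonneg_left hU (by linarith)
  have h2 : r * ((T - 1) * U) ≤ r * (c5 / 2 * N2) := mul_le_mul_of_nonneg_left hU2 hr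
  have h3 : 0 ≤ (T + 1) * (e1 + e2) := by positivity
  have h4 : c5 / 2 * (r * N2) ≤ SM - T * E + (T + 1) * (e1 + e2) := by nlinarith
  have h5 : 4 * A * N2 ≤ c5 * r * N2 := mul_le_mul_of_nonneg_right hrA hN
  have h6 : 0 ≤ c5 * (r * N2) := mul_nonneg hc hrN
  constructor <;> nlinarith

theorem loc : S_LA.{u} → S_LB.{u} → S_UB.{u} → S_LOC.{u} := by
  intro hLA hLB hUB p d A hp hd hA
  have hd0 : (2 : ℝ) ≤ d := by exact_mod_cast hd
  obtain ⟨c5, hc5⟩ : ∃ c5 : ℝ, c5 = 1 / (8 * (d : ℝ) ^ 2) := ⟨_, rfl⟩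
  have hc5p : 0 < c5 := by rw [hc5]; positivity
  obtain ⟨J, hJ⟩ := exists_nat_ge (1 + 4 * A * ((d : ℝ) + 1) / c5)
  have hJ1 : 1 ≤ J := by
    have h1 : (1 : ℝ) ≤ J := by
      refine le_trans ?_ hJ
      have : 0 ≤ 4 * A * ((d : ℝ) + 1) / c5 := by positivity
      linarith
    exact_mod_cast h1
  obtain ⟨ε, N₁, hε, hLA'⟩ := hLA p d J hp hd hJ1
  obtain ⟨N₂, hLB'⟩ := hLB d (2 * J + 1) hd (by omega)
  obtain ⟨T, hT⟩ : ∃ T : ℝ, T = max 1 (((d : ℝ) + c5 / 4 + 2 * ((d : ℝ) + 1) * A) / min ε c5) :=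
    ⟨_, rfl⟩
  have hT1 : 1 ≤ T := by rw [hT]; exact le_max_left _ _
  have hmin : 0 < min ε c5 := lt_min hε hc5p
  have hT2 : (d : ℝ) + c5 / 4 + 2 * ((d : ℝ) + 1) * A ≤ T * min ε c5 := by
    rw [← div_le_iff₀ hmin, hT]
    exact le_max_right _ _
  obtain ⟨N₃, hN₃⟩ := err_small hd 0 (c5 / 2 / T) (by positivity)
  refine ⟨2 * J + 1, max (max N₁ N₂) N₃, T, c5 / 4, by omega, hT1, by positivity, ?_⟩
  intro L _ _ _ f hf hdeg hmul x₀ R hD Y hYc hY hinj hα l₀ hl₀ hl₀Y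
  have hr : 0 ≤ Real.log R := Real.log_nonneg hD.one
  have hYN1 : N₁ ≤ Y.card := (le_max_left _ _).trans ((le_max_left _ _).trans hYc)
  have hYN2 : N₂ ≤ Y.card := (le_max_right _ _).trans ((le_max_left _ _).trans hYc)
  have hYN3 : N₃ ≤ Y.card := (le_max_right _ _).trans hYc
  have hE1 := Er_nonneg ld d (Real.log R) id Y
  have hE2 := Er_nonneg ld d (Real.log R) ((fun z => f.eval z)^[2 * J + 1]) Y
  have hSM := Mx_lower ld l₀ d (Real.log R) Y
  have hUBY := hUB L f d hf hdeg hd x₀ R hD.one Y hY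
  have hN0 : (0 : ℝ) ≤ (Y.card : ℝ) ^ 2 := by positivity
  have hcase1 : En ld Y ≤ -(min ε c5 * Real.log R * (Y.card : ℝ) ^ 2) +
      Er ld d (Real.log R) ((fun z => f.eval z)^[2 * J + 1]) Y →
      LocIneq ld ((fun z => f.eval z)^[2 * J + 1]) Y l₀ d (Real.log R) A T (c5 / 4) := by
    intro h
    exact loc_case1 hr hN0 hE1 hE2 hT1 (by positivity) hA (by linarith) hSM h
  have hmono : ∀ x : ℝ, min ε c5 ≤ x → En ld Y ≤ -(x * Real.log R * (Y.card : ℝ) ^ 2) +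
      Er ld d (Real.log R) ((fun z => f.eval z)^[2 * J + 1]) Y →
      En ld Y ≤ -(min ε c5 * Real.log R * (Y.card : ℝ) ^ 2) +
      Er ld d (Real.log R) ((fun z => f.eval z)^[2 * J + 1]) Y := by
    intro x hx h
    have h1 : min ε c5 * (Real.log R * (Y.card : ℝ) ^ 2) ≤ x * (Real.log R * (Y.card : ℝ) ^ 2) :=
      mul_le_mul_of_nonneg_right hx (by positivity)
    nlinarith
  rcases hD.one.eq_or_lt with hR1 | hR1
  · -- `R = 1`
    apply hcase1
    rw [← hR1, Real.log_one] at hUBY ⊢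
    rw [← hR1, Real.log_one] at hE2
    linarith
  · rcases hLA' L f hf hdeg hmul x₀ R hD hR1 Y hYN1 hY hinj hα with h1 | h1
    · rcases hLB' L f hf hdeg x₀ R hD hR1 Y hYN2 hY hinj l₀ hl₀ hl₀Y with h2 | h2
      · rw [← hc5] at h2
        exact hcase1 (hmono c5 (min_le_right _ _) h2)
      · rw [← hc5] at h2
        have h3 := hN₃ Y.card hYN3
        have hU2 : (T - 1) * (2 * d * Y.card * ((Nat.log d Y.card : ℝ) + 1)) ≤
            c5 / 2 * (Y.card : ℝ) ^ 2 := by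
          rw [zero_mul, add_zero] at h3
          have h4 : 0 ≤ (2 : ℝ) * d * Y.card * ((Nat.log d Y.card : ℝ) + 1) := by positivity
          calc (T - 1) * (2 * d * Y.card * ((Nat.log d Y.card : ℝ) + 1)) ≤
              T * (2 * d * Y.card * ((Nat.log d Y.card : ℝ) + 1)) :=
                mul_le_mul_of_nonneg_right (by linarith) h4
            _ ≤ T * (c5 / 2 / T * (Y.card : ℝ) ^ 2) := mul_le_mul_of_nonneg_left h3 (by linarith)
            _ = c5 / 2 * (Y.card : ℝ) ^ 2 := by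
              have : T ≠ 0 := by linarith
              field_simp
        have hrA : 4 * A ≤ c5 * Real.log R := by
          have h5 : 4 * A * ((d : ℝ) + 1) / c5 ≤ ((d : ℝ) + 1) * Real.log R := by linarith
          rw [div_le_iff₀ hc5p] at h5
          have h6 : (0 : ℝ) < (d : ℝ) + 1 := by positivity
          nlinarith
        have h7 := loc_case2 hr hN0 hE1 hE2 hT1 hc5p.le hrA hUBY hU2 h2
        exact ⟨h7.1, fun _ => h7.2⟩
    · exact hcase1 (hmono ε (min_le_left _ _) h1)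

end Pool.Agent.P8H33.IU
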